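import Mathlib

set_option autoImplicit false

/-!
An ultimately bipartite subtraction game whose subtraction set is expandable: for the subtraction
set `{3, 5, 17, 21}` the nim-values are `0, 1, 0, 1, ...` from `34` on, and the expansion set is
`{3, 5, 13, 17, 21}`.
-/

namespace Pool.Agent.Results.MP_bd62ae_co.Expandable

/-- The nim-value of a pile of `n` coins in the subtraction game with subtraction set `S`: the
least natural number `k` that differs from the nim-value of every pile of `n - s` coins, `s` an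
element of `S` with `0 < s ≤ n`. -/
noncomputable def nim (S : Finset ℕ) (n : ℕ) : ℕ :=
  sInf {k | ∀ s : {s : ℕ // s ∈ S ∧ 0 < s ∧ s ≤ n}, nim S (n - s.1) ≠ k}
termination_by n
decreasing_by
  have := s.2
  omega

/-- The game with subtraction set `S` is ultimately bipartite: the least positive `p` with
`nim S (n + p) = nim S n` for all large `n` is `2`, and from some point on the nim-values are
`0, 1, 0, 1, ...`. -/
def UltimatelyBipartite (S : Finset ℕ) : Prop :=
  IsLeast {p | 0 < p ∧ ∃ n₀, ∀ n, n₀ ≤ n → nim S (n + p) = nim S n} 2 ∧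
    ∃ n₀, ∀ j, nim S (n₀ + 2 * j) = 0 ∧ nim S (n₀ + 2 * j + 1) = 1

/-- The expansion set `S^ex`: all positive `s` with `nim S (n + s) ≠ nim S n` for every `n`. -/
def expansion (S : Finset ℕ) : Set ℕ := {s | 0 < s ∧ ∀ n, nim S (n + s) ≠ nim S n}

/-- The set `S^{*p}` of all `s + m * p` with `s` in `S` and `m ≥ 0`. -/
def star (S : Finset ℕ) (p : ℕ) : Set ℕ := {x | ∃ s ∈ S, ∃ m : ℕ, x = s + m * p}

/-- the subtraction set of the counterexample -/
def S0 : Finset ℕ := {3, 5, 17, 21}

/-- the nim-values before they become periodic -/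
def tab : Fin 34 → ℕ :=
  ![0, 0, 0, 1, 1, 1, 2, 2, 0, 0, 0, 1, 1, 1, 2, 2, 0, 3, 3, 1, 0, 2, 2, 1, 0, 3, 3, 1, 0, 2, 2,
    1, 0, 3]

/-- the nim-sequence in closed form -/
def g (n : ℕ) : ℕ := if h : n < 34 then tab ⟨n, h⟩ else n % 2

theorem nim_eq (n : ℕ) (S : Finset ℕ) :
    nim S n = sInf {k | ∀ s : {s : ℕ // s ∈ S ∧ 0 < s ∧ s ≤ n}, nim S (n - s.1) ≠ k} := by
  rw [nim]

theorem g_big {n : ℕ} (h : 34 ≤ n) : g n = n % 2 := by
  unfold g
  rw [dif_neg (by omega)]

/-- the recursion holds in the first piles -/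
theorem g_small : ∀ n : Fin 56, (∀ s ∈ S0, s ≤ (n : ℕ) → g (n - s) ≠ g n) ∧
    ∀ k : Fin 4, (k : ℕ) < g n → ∃ s ∈ S0, s ≤ (n : ℕ) ∧ g (n - s) = k := by
  decide

theorem g_le (n : ℕ) : g n < 4 := by
  unfold g
  split
  · generalize (⟨n, _⟩ : Fin 34) = i
    revert i
    decide
  · omega

theorem S0_le : ∀ s ∈ S0, 0 < s ∧ s ≤ 21 ∧ s % 2 = 1 := by decide

theorem g_rec (n : ℕ) : (∀ s ∈ S0, s ≤ n → g (n - s) ≠ g n) ∧
    ∀ k : ℕ, k < g n → ∃ s ∈ S0, s ≤ n ∧ g (n - s) = k := by
  rcases Nat.lt_or_ge n 56 with h | h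
  · have h1 := g_small ⟨n, h⟩
    refine ⟨h1.1, fun k hk => ?_⟩
    have hk5 : k < 4 := lt_trans hk (g_le n)
    exact h1.2 ⟨k, hk5⟩ hk
  · constructor
    · intro s hs _
      have := S0_le s hs
      rw [g_big (by omega), g_big (by omega)]
      omega
    · intro k hk
      rw [g_big (by omega)] at hk
      refine ⟨3, by decide, by omega, ?_⟩
      rw [g_big (by omega)]
      omega

theorem nim_g (n : ℕ) : nim S0 n = g n := by
  induction n using Nat.strong_induction_on with
  | _ n ih =>
    rw [nim_eq]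
    have hset : {k | ∀ s : {s : ℕ // s ∈ S0 ∧ 0 < s ∧ s ≤ n}, nim S0 (n - s.1) ≠ k} =
        {k | ∀ s ∈ S0, s ≤ n → g (n - s) ≠ k} := by
      ext k
      constructor
      · intro hk s hs hsn
        have h0 := S0_le s hs
        have := hk ⟨s, hs, h0.1, hsn⟩
        rwa [ih (n - s) (by omega)] at this
      · rintro hk ⟨s, hs, h0, hsn⟩
        show nim S0 (n - s) ≠ k
        rw [ih (n - s) (by omega)]
        exact hk s hs hsn
    rw [hset]
    obtain ⟨h1, h2⟩ := g_rec n
    apply IsLeast.csInf_eq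
    refine ⟨h1, fun k hk => ?_⟩
    by_contra hlt
    obtain ⟨s, hs, hsn, hg⟩ := h2 k (not_le.mp hlt)
    exact hk s hs hsn hg

theorem bip : UltimatelyBipartite S0 := by
  have e : nim S0 = g := funext nim_g
  unfold UltimatelyBipartite
  rw [e]
  refine ⟨⟨⟨by norm_num, 34, fun n hn => ?_⟩, ?_⟩, 34, fun j => ⟨?_, ?_⟩⟩
  · rw [g_big (by omega), g_big (by omega)]
    omega
  · rintro p ⟨hp, n₀, hper⟩
    by_contra hlt
    have hp1 : p = 1 := by omega
    subst hp1
    have h1 := hper (n₀ + 34) (by omega)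
    rw [g_big (by omega), g_big (by omega)] at h1
    omega
  · rw [g_big (by omega)]
    omega
  · rw [g_big (by omega)]
    omega

/-- for a small `s` outside the expansion set, a pile `n` with equal values at `n` and `n + s` -/
theorem coll_small : ∀ s : Fin 34, 0 < (s : ℕ) →
    (s : ℕ) ≠ 3 → (s : ℕ) ≠ 5 → (s : ℕ) ≠ 13 → (s : ℕ) ≠ 17 → (s : ℕ) ≠ 21 →
    ∃ n : Fin 36, g (n + s) = g n := by
  decide

/-- the five members of the expansion set never repeat a value in the first piles -/
theorem nocoll_small : ∀ n : Fin 34, g (n + 3) ≠ g n ∧ g (n + 5) ≠ g n ∧ g (n + 13) ≠ g n ∧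
    g (n + 17) ≠ g n ∧ g (n + 21) ≠ g n := by
  decide

theorem expansion_eq : expansion S0 = {3, 5, 13, 17, 21} := by
  ext s
  unfold expansion
  simp only [Set.mem_ofPred_eq, Set.mem_insert_iff, Set.mem_singleton_iff, nim_g]
  constructor
  · rintro ⟨hs, hn⟩
    by_contra hne
    push Not at hne
    obtain ⟨h3, h5, h13, h17, h21⟩ := hne
    rcases Nat.lt_or_ge s 34 with h | h
    · obtain ⟨n, hg⟩ := coll_small ⟨s, h⟩ hs h3 h5 h13 h17 h21
      exact hn n hg
    · rcases Nat.mod_two_eq_zero_or_one s with h2 | h2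
      · apply hn 0
        rw [g_big (by omega), show g 0 = 0 by decide]
        omega
      · apply hn 1
        rw [g_big (by omega), show g 1 = 0 by decide]
        omega
  · intro hs
    refine ⟨by omega, fun n => ?_⟩
    rcases Nat.lt_or_ge n 34 with h | h
    · obtain ⟨h3, h5, h13, h17, h21⟩ := nocoll_small ⟨n, h⟩
      rcases hs with rfl | rfl | rfl | rfl | rfl
      · exact h3
      · exact h5
      · exact h13
      · exact h17
      · exact h21
    · rw [g_big (by omega), g_big (by omega)]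
      omega

/-- The subtraction game with subtraction set `S = {3, 5, 17, 21}` is ultimately bipartite, its
expansion set `S^ex` is `{3, 5, 13, 17, 21}`, and so `S^ex` is neither `S` nor `S^{*2}`: the set
`S` is expandable. -/
theorem result : UltimatelyBipartite S0 ∧ expansion S0 = {3, 5, 13, 17, 21} ∧
    expansion S0 ≠ (S0 : Set ℕ) ∧ expansion S0 ≠ star S0 2 := by
  refine ⟨bip, expansion_eq, fun h => ?_, fun h => ?_⟩
  · have h13 : (13 : ℕ) ∈ expansion S0 := by
      rw [expansion_eq]
      simp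
    rw [h] at h13
    revert h13
    simp [S0]
  · have h7 : (7 : ℕ) ∈ expansion S0 := by
      rw [h]
      exact ⟨3, by decide, 2, rfl⟩
    rw [expansion_eq] at h7
    revert h7
    simp

end Pool.Agent.Results.MP_bd62ae_co.Expandable
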